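import Mathlib

set_option autoImplicit false
open Pointwise

namespace Pool.Agent.Results.MP_2bbb0a_co.HalfDensity

open Finset

/-- indicator of `A` -/
def ind {n : ℕ} (A : Finset (Fin n → ZMod 2)) (x : Fin n → ZMod 2) : ℕ := if x ∈ A then 1 else 0

/-- the index group -/
abbrev P4 := ZMod 2 × ZMod 2 × ZMod 2 × ZMod 2

/-- the linear map with generators `a, b, c, d` -/
def lin {n : ℕ} (a b c d : Fin n → ZMod 2) (t : P4) : Fin n → ZMod 2 :=
  t.1 • a + t.2.1 • b + t.2.2.1 • c + t.2.2.2 • d

theorem lin_add {n : ℕ} (a b c d : Fin n → ZMod 2) (t u : P4) :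
    lin a b c d (t + u) = lin a b c d t + lin a b c d u := by
  simp only [lin, Prod.fst_add, Prod.snd_add, add_smul]
  ring

theorem two_zero {n : ℕ} (x : Fin n → ZMod 2) : x + x = 0 := by
  funext i
  simp only [Pi.add_apply, Pi.zero_apply]
  exact CharTwo.add_self_eq_zero (x i)

theorem ind_le {n : ℕ} (A : Finset (Fin n → ZMod 2)) (x : Fin n → ZMod 2) : ind A x ≤ 1 := by
  unfold ind
  split_ifs <;> simp

theorem ind_pair {n : ℕ} {A : Finset (Fin n → ZMod 2)} {x y m : Fin n → ZMod 2}
    (hm : m ∉ A + A) (h : x + y = m) : ind A x + ind A y ≤ 1 := by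
  unfold ind
  split_ifs with h1 h2
  · exact absurd (h ▸ Finset.add_mem_add h1 h2) hm
  all_goals simp

theorem sum_five {n : ℕ} {A : Finset (Fin n → ZMod 2)} {a b c d : Fin n → ZMod 2}
    (ha : a ∉ A + A) (hb : b ∉ A + A) (hc : c ∉ A + A) (hd : d ∉ A + A)
    (he : a + b + c + d ∉ A + A) {x : Fin n → ZMod 2} (hx : x ∈ A) :
    ∑ t : P4, ind A (x + lin a b c d t) ≤ 5 := by
  have h2 := @two_zero n
  have e0 : ind A x = 1 := by simp [ind, hx]
  have key : ∑ t : P4, ind A (x + lin a b c d t) =
      ind A x + ind A (x + d) + ind A (x + c) + ind A (x + (c + d)) +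
      ind A (x + b) + ind A (x + (b + d)) + ind A (x + (b + c)) + ind A (x + (b + c + d)) +
      ind A (x + a) + ind A (x + (a + d)) + ind A (x + (a + c)) + ind A (x + (a + c + d)) +
      ind A (x + (a + b)) + ind A (x + (a + b + d)) + ind A (x + (a + b + c)) +
      ind A (x + (a + b + c + d)) := by
    have hz : ∀ f : ZMod 2 → ℕ, ∑ t : ZMod 2, f t = f 0 + f 1 := fun f => Fin.sum_univ_two f
    simp only [Fintype.sum_prod_type, hz, lin, zero_smul, one_smul, zero_add, add_zero]
    ring
  rw [key]
  -- neighbours of x
  have n1 := ind_pair (x := x) (y := x + a) ha (by linear_combination h2 x)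
  have n2 := ind_pair (x := x) (y := x + b) hb (by linear_combination h2 x)
  have n3 := ind_pair (x := x) (y := x + c) hc (by linear_combination h2 x)
  have n4 := ind_pair (x := x) (y := x + d) hd (by linear_combination h2 x)
  have n5 := ind_pair (x := x) (y := x + (a + b + c + d)) he (by linear_combination h2 x)
  -- first 5-cycle: 12, 34, 15, 23, 45
  have c1 := ind_pair (x := x + (a + b)) (y := x + (c + d)) he (by linear_combination h2 x)
  have c2 := ind_pair (x := x + (c + d)) (y := x + (b + c + d)) hb
    (by linear_combination h2 x + h2 c + h2 d)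
  have c3 := ind_pair (x := x + (b + c + d)) (y := x + (b + c)) hd
    (by linear_combination h2 x + h2 b + h2 c)
  have c4 := ind_pair (x := x + (b + c)) (y := x + (a + b + c)) ha
    (by linear_combination h2 x + h2 b + h2 c)
  have c5 := ind_pair (x := x + (a + b + c)) (y := x + (a + b)) hc
    (by linear_combination h2 x + h2 a + h2 b)
  -- second 5-cycle: 13, 24, 35, 14, 25
  have d1 := ind_pair (x := x + (a + c)) (y := x + (b + d)) he (by linear_combination h2 x)
  have d2 := ind_pair (x := x + (b + d)) (y := x + (a + b + d)) ha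
    (by linear_combination h2 x + h2 b + h2 d)
  have d3 := ind_pair (x := x + (a + b + d)) (y := x + (a + d)) hb
    (by linear_combination h2 x + h2 a + h2 d)
  have d4 := ind_pair (x := x + (a + d)) (y := x + (a + c + d)) hc
    (by linear_combination h2 x + h2 a + h2 d)
  have d5 := ind_pair (x := x + (a + c + d)) (y := x + (a + c)) hd
    (by linear_combination h2 x + h2 a + h2 c)
  omega

theorem sum_five' {n : ℕ} {A : Finset (Fin n → ZMod 2)} {a b c d : Fin n → ZMod 2}
    (ha : a ∉ A + A) (hb : b ∉ A + A) (hc : c ∉ A + A) (hd : d ∉ A + A)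
    (he : a + b + c + d ∉ A + A) (x : Fin n → ZMod 2) :
    ∑ t : P4, ind A (x + lin a b c d t) ≤ 5 := by
  by_cases h : ∃ t0 : P4, x + lin a b c d t0 ∈ A
  · obtain ⟨t0, ht0⟩ := h
    have h1 := sum_five ha hb hc hd he ht0
    have h2 : ∑ t : P4, ind A (x + lin a b c d t) =
        ∑ t : P4, ind A (x + lin a b c d t0 + lin a b c d t) := by
      rw [← Equiv.sum_comp (Equiv.addRight t0)]
      refine Finset.sum_congr rfl fun t _ => ?_
      simp only [Equiv.coe_addRight, lin_add]
      congr 1
      ring
    rw [h2]
    exact h1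
  · push Not at h
    have : ∑ t : P4, ind A (x + lin a b c d t) = 0 :=
      Finset.sum_eq_zero fun t _ => by simp [ind, h t]
    omega

/-- The complement of `A + A` has no solution of `a + b + c + d = e`. -/
theorem four_not {n : ℕ} {A : Finset (Fin n → ZMod 2)} (hA : 5 * 2 ^ n < 16 * A.card)
    {a b c d : Fin n → ZMod 2}
    (ha : a ∉ A + A) (hb : b ∉ A + A) (hc : c ∉ A + A) (hd : d ∉ A + A) :
    a + b + c + d ∈ A + A := by
  by_contra he
  have h1 : ∑ x : Fin n → ZMod 2, ∑ t : P4, ind A (x + lin a b c d t) ≤ 5 * 2 ^ n := by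
    have := Finset.sum_le_sum fun (x : Fin n → ZMod 2) (_ : x ∈ (Finset.univ : Finset _)) =>
      sum_five' ha hb hc hd he x
    refine this.trans ?_
    simp [mul_comm]
  have h2 : ∑ x : Fin n → ZMod 2, ∑ t : P4, ind A (x + lin a b c d t) = 16 * A.card := by
    rw [Finset.sum_comm]
    have : ∀ t : P4, ∑ x : Fin n → ZMod 2, ind A (x + lin a b c d t) = A.card := by
      intro t
      have h3 := Equiv.sum_comp (Equiv.addRight (lin a b c d t)) (fun x => ind A x)
      simp only [Equiv.coe_addRight] at h3
      rw [h3]
      simp [ind]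
    simp only [this]
    simp
  have h3 : 0 < 2 ^ n := by positivity
  omega

/-- For every `n` and every `A` in `F_2^n` of density greater than `5/16` there is a set `B` with
`B + B + B + B` contained in `A + A` and `B + B + B + B` of density at least `1/2`. -/
theorem result : ∀ n : ℕ, ∀ A : Finset (Fin n → ZMod 2), 5 * 2 ^ n < 16 * A.card →
    ∃ B : Finset (Fin n → ZMod 2),
      B + B + B + B ⊆ A + A ∧ 2 ^ n ≤ 2 * (B + B + B + B).card := by
  intro n A hA
  have hcard : Fintype.card (Fin n → ZMod 2) = 2 ^ n := by simp
  have hApos : A.Nonempty := by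
    rw [← Finset.card_pos]
    omega
  have h0 : (0 : Fin n → ZMod 2) ∈ A + A := by
    obtain ⟨a, ha⟩ := hApos
    have := Finset.add_mem_add ha ha
    rwa [two_zero] at this
  set M : Finset (Fin n → ZMod 2) := (A + A)ᶜ with hM
  have hMmem : ∀ x, x ∈ M ↔ x ∉ A + A := by intro x; simp [hM]
  by_cases hMe : M = ∅
  · refine ⟨Finset.univ, ?_, ?_⟩
    · have : A + A = Finset.univ := by
        have := hMe
        rw [hM] at this
        exact compl_eq_bot.mp this
      rw [this]
      exact Finset.subset_univ _
    · have : (Finset.univ : Finset (Fin n → ZMod 2)) ⊆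
          Finset.univ + Finset.univ + Finset.univ + Finset.univ := by
        intro x _
        have : x = 0 + 0 + 0 + x := by simp
        rw [this]
        exact Finset.add_mem_add (Finset.add_mem_add (Finset.add_mem_add (Finset.mem_univ _)
          (Finset.mem_univ _)) (Finset.mem_univ _)) (Finset.mem_univ _)
      have h4 := Finset.card_le_card this
      rw [Finset.card_univ, hcard] at h4
      omega
  · -- the family of admissible sets
    let F : Finset (Finset (Fin n → ZMod 2)) :=
      Finset.univ.filter fun B => M ⊆ B ∧ B + B + B + B ⊆ A + A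
    have hMF : M ∈ F := by
      simp only [F, Finset.mem_filter, Finset.mem_univ, true_and]
      refine ⟨subset_rfl, ?_⟩
      intro x hx
      obtain ⟨y, hy, d, hd, rfl⟩ := Finset.mem_add.mp hx
      obtain ⟨z, hz, c, hc, rfl⟩ := Finset.mem_add.mp hy
      obtain ⟨a, ha, b, hb, rfl⟩ := Finset.mem_add.mp hz
      exact four_not hA ((hMmem _).mp ha) ((hMmem _).mp hb) ((hMmem _).mp hc) ((hMmem _).mp hd)
    obtain ⟨B, hBF, hBmax⟩ := Finset.exists_max_image F Finset.card ⟨M, hMF⟩
    simp only [F, Finset.mem_filter, Finset.mem_univ, true_and] at hBF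
    obtain ⟨hMB, hB4⟩ := hBF
    have hBne : B.Nonempty := (Finset.nonempty_iff_ne_empty.mpr hMe).mono hMB
    refine ⟨B, hB4, ?_⟩
    have mem4 : ∀ {a b c d : Fin n → ZMod 2}, a ∈ B → b ∈ B → c ∈ B → d ∈ B →
        a + b + c + d ∈ B + B + B + B := fun ha hb hc hd =>
      Finset.add_mem_add (Finset.add_mem_add (Finset.add_mem_add ha hb) hc) hd
    have hcov : ∀ x, x ∈ B ∪ (B + B + B + B) := by
      intro x
      by_contra hx
      rw [Finset.mem_union, not_or] at hx
      obtain ⟨hxB, hx4⟩ := hx
      have hnot : ¬ (insert x B + insert x B + insert x B + insert x B ⊆ A + A) := by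
        intro hsub
        have h5 : insert x B ∈ F := by
          simp only [F, Finset.mem_filter, Finset.mem_univ, true_and]
          exact ⟨hMB.trans (Finset.subset_insert _ _), hsub⟩
        have h6 := hBmax _ h5
        rw [Finset.card_insert_of_notMem hxB] at h6
        omega
      apply hnot
      intro m hm
      by_contra hmA
      have hmB : m ∈ B := hMB ((hMmem m).mpr hmA)
      obtain ⟨y, hy, d, hd, rfl⟩ := Finset.mem_add.mp hm
      obtain ⟨z, hz, c, hc, rfl⟩ := Finset.mem_add.mp hy
      obtain ⟨a, ha, b, hb, rfl⟩ := Finset.mem_add.mp hz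
      have h2 := @two_zero n
      have q4 : ∀ {p q r s : Fin n → ZMod 2}, p ∈ B → q ∈ B → r ∈ B → s ∈ B →
        p + q + r + s = a + b + c + d → False := fun hp hq hr hs h => hmA (h ▸ hB4 (mem4 hp hq hr hs))
      have q2 : ∀ {p q : Fin n → ZMod 2}, p ∈ B → q ∈ B →
        p + q = a + b + c + d → False := by
        intro p q hp hq h
        exact q4 hp hq hp hp (by linear_combination h + h2 p)
      have q3 : ∀ {p q r : Fin n → ZMod 2}, p ∈ B → q ∈ B → r ∈ B →
        x + p + q + r = a + b + c + d → False := by
        intro p q r hp hq hr h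
        apply hx4
        have := mem4 hmB hp hq hr
        convert this using 1
        linear_combination h - h2 p - h2 q - h2 r
      have q1 : ∀ {p : Fin n → ZMod 2}, p ∈ B → x + p = a + b + c + d → False := by
        intro p hp h
        exact q3 hp hp hp (by linear_combination h + h2 p)
      rcases Finset.mem_insert.mp ha with ha | ha <;> rcases Finset.mem_insert.mp hb with hb | hb <;>
        rcases Finset.mem_insert.mp hc with hc | hc <;> rcases Finset.mem_insert.mp hd with hd | hd
      · exact hmA (by
          have : a + b + c + d = 0 := by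
            linear_combination ha + hb + hc + hd + 2 * h2 x
          rw [this]
          exact h0)
      · exact q1 hd (by linear_combination -ha - hb - hc - h2 x)
      · exact q1 hc (by linear_combination -ha - hb - hd - h2 x)
      · exact q2 hc hd (by linear_combination -ha - hb - h2 x)
      · exact q1 hb (by linear_combination -ha - hc - hd - h2 x)
      · exact q2 hb hd (by linear_combination -ha - hc - h2 x)
      · exact q2 hb hc (by linear_combination -ha - hd - h2 x)
      · exact q3 hb hc hd (by linear_combination -ha)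
      · exact q1 ha (by linear_combination -hb - hc - hd - h2 x)
      · exact q2 ha hd (by linear_combination -hb - hc - h2 x)
      · exact q2 ha hc (by linear_combination -hb - hd - h2 x)
      · exact q3 ha hc hd (by linear_combination -hb)
      · exact q2 ha hb (by linear_combination -hc - hd - h2 x)
      · exact q3 ha hb hd (by linear_combination -hc)
      · exact q3 ha hb hc (by linear_combination -hd)
      · exact q4 ha hb hc hd rfl
    have h7 : Fintype.card (Fin n → ZMod 2) ≤ (B ∪ (B + B + B + B)).card := by
      rw [← Finset.card_univ]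
      exact Finset.card_le_card fun x _ => hcov x
    have h8 := Finset.card_union_le B (B + B + B + B)
    have h9 : B.card ≤ (B + B + B + B).card :=
      Finset.card_le_card_add_left ((hBne.add hBne).add hBne)
    rw [hcard] at h7
    omega

end Pool.Agent.Results.MP_2bbb0a_co.HalfDensity
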